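import Pool.Agent.LPW.StmtsF

/-!
# Squad LPW, row FRU: full rank for irreducible families with independent units
-/

set_option autoImplicit false

open Polynomial NumberField
open Pool.Agent.LUB (FullRank sp spr Exceptional Fam MainStmt SphStmt SpfStmt BndStmt DepStmt)

namespace Pool.Agent.LPW.H21

theorem fru : FruStmt := by
  intro hS hC hF r f u v b hf hirr huv hInd
  obtain ⟨Ω, _, _, T, Θ, hT, hΘ, hI⟩ := hInd
  obtain ⟨Ω', _, _, ι, θ, hθ, hsp, hT'⟩ := hS Ω T hT f f.natDegree hf rfl hirr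
  have hn : 0 < f.natDegree := by
    rw [Nat.pos_iff_ne_zero]
    intro h0
    have h1 : f = 1 := hf.natDegree_eq_zero.1 h0
    rw [h1] at hΘ
    unfold spr at hΘ
    rw [Polynomial.map_one, eval_one] at hΘ
    exact one_ne_zero hΘ
  refine hF Ω' (ι T) hT' r f.natDegree f u v b θ hθ hf hsp huv (fun m hm => hI m ?_)
  refine hC Ω' Ω (ι T) (θ ⟨0, hn⟩) T Θ hT' hT r f u hf hirr ?_ hΘ m (hm _)
  rw [hsp, eval_prod]
  exact Finset.prod_eq_zero (Finset.mem_univ (⟨0, hn⟩ : Fin f.natDegree)) (by simp)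

end Pool.Agent.LPW.H21
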